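import Pool.Agent.Helper56.RZ.GoalsD
import Pool.Agent.Helper55.RZ.J1

/-!
PROJECT RZ3, packet JV: volume distortion.
-/

set_option autoImplicit false

open Set Filter Topology MeasureTheory

namespace Pool.Agent.Helper83.RZ

open Pool.Agent.Helper56.RZ
open Pool.Agent.Helper55.RZ (nn_inner dt_conj jac_eq dt_nonneg dt_pos_one)

variable {K u : ℕ}

/-- the kernel of `P` -/
abbrev kerP (P : End K) : Submodule ℝ (E K) := LinearMap.ker (P : E K →ₗ[ℝ] E K)

/-- the product space -/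
abbrev VV (u : ℕ) (P : End K) : Type := WithLp 2 (E u × kerP P)

theorem finrank_VV (P : End K)
    (h : Module.finrank ℝ (LinearMap.range (P : E K →ₗ[ℝ] E K)) = u) :
    Module.finrank ℝ (VV u P) = K := by
  have h1 : Module.finrank ℝ (VV u P) = Module.finrank ℝ (E u × kerP P) :=
    (WithLp.linearEquiv 2 ℝ (E u × kerP P)).finrank_eq
  have h2 : Module.finrank ℝ (LinearMap.range (P : E K →ₗ[ℝ] E K)) +
      Module.finrank ℝ (kerP P) = Module.finrank ℝ (E K) :=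
    LinearMap.finrank_range_add_finrank_ker (P : E K →ₗ[ℝ] E K)
  rw [h1, Module.finrank_prod]
  have h3 : Module.finrank ℝ (E u) = u := by simp
  have h4 : Module.finrank ℝ (E K) = K := by simp
  omega

/-- block diagonal map on the product space -/
noncomputable def blk (P : End K) (f : E u →ₗ[ℝ] E u) : VV u P →ₗ[ℝ] VV u P :=
  ((WithLp.linearEquiv 2 ℝ (E u × kerP P)).symm : (E u × kerP P) →ₗ[ℝ] VV u P) ∘ₗ
    (f.prodMap LinearMap.id) ∘ₗ
    (WithLp.linearEquiv 2 ℝ (E u × kerP P) : VV u P →ₗ[ℝ] (E u × kerP P))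

theorem det_blk (P : End K) (f : E u →ₗ[ℝ] E u) : LinearMap.det (blk P f) = LinearMap.det f := by
  unfold blk
  have h1 := LinearMap.det_conj (f.prodMap (LinearMap.id : kerP P →ₗ[ℝ] kerP P))
    (WithLp.linearEquiv 2 ℝ (E u × kerP P)).symm
  rw [LinearEquiv.symm_symm] at h1
  rw [h1, LinearMap.det_prodMap, LinearMap.det_id, mul_one]

theorem blk_fst (P : End K) (f : E u →ₗ[ℝ] E u) (z : VV u P) :
    (WithLp.ofLp (blk P f z)).1 = f (WithLp.ofLp z).1 := rfl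

theorem blk_snd (P : End K) (f : E u →ₗ[ℝ] E u) (z : VV u P) :
    (WithLp.ofLp (blk P f z)).2 = (WithLp.ofLp z).2 := rfl

theorem key (T : E u →L[ℝ] E K) (P : End K) (hPT : P ∘L T = T)
    (hr : Module.finrank ℝ (LinearMap.range (P : E K →ₗ[ℝ] E K)) = u) :
    ∃ d : ℝ, ∀ A : End K,
      LinearMap.det (((ContinuousLinearMap.adjoint (A ∘L T)) ∘L (A ∘L T) : End u) :
        E u →ₗ[ℝ] E u) = d ^ 2 * Pool.Agent.Helper55.RZ.dt (NN A P) := by
  let Φ : VV u P ≃ₗᵢ[ℝ] E K :=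
    ((stdOrthonormalBasis ℝ (VV u P)).reindex (finCongr (finrank_VV P hr))).repr
  let Θ : VV u P →ₗ[ℝ] E K :=
    (T : E u →ₗ[ℝ] E K) ∘ₗ LinearMap.fst ℝ (E u) (kerP P) ∘ₗ
        (WithLp.linearEquiv 2 ℝ (E u × kerP P) : VV u P →ₗ[ℝ] (E u × kerP P)) +
      (kerP P).subtype ∘ₗ LinearMap.snd ℝ (E u) (kerP P) ∘ₗ
        (WithLp.linearEquiv 2 ℝ (E u × kerP P) : VV u P →ₗ[ℝ] (E u × kerP P))
  have hΘ : ∀ z : VV u P, Θ z = T (WithLp.ofLp z).1 + ((WithLp.ofLp z).2 : E K) := fun z => rfl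
  let W : End K := LinearMap.toContinuousLinearMap (Θ ∘ₗ (Φ.symm.toLinearEquiv : E K →ₗ[ℝ] VV u P))
  have hW : ∀ v, W v = T (WithLp.ofLp (Φ.symm v)).1 + ((WithLp.ofLp (Φ.symm v)).2 : E K) :=
    fun v => rfl
  have hPT' : ∀ a, P (T a) = T a := fun a => by
    have := congrArg (fun B : E u →L[ℝ] E K => B a) hPT
    exact this
  have hk : ∀ k : kerP P, P (k : E K) = 0 := fun k => k.2
  have hPW : ∀ v, P (W v) = T (WithLp.ofLp (Φ.symm v)).1 := fun v => by
    rw [hW, map_add, hPT', hk, add_zero]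
  have hPW' : ∀ v, (1 - P) (W v) = ((WithLp.ofLp (Φ.symm v)).2 : E K) := fun v => by
    have h1 : (1 - P) (W v) = W v - P (W v) := rfl
    rw [h1, hPW, hW]
    abel
  refine ⟨Pool.Agent.Helper55.RZ.dt W, fun A => ?_⟩
  set f : E u →ₗ[ℝ] E u := (((ContinuousLinearMap.adjoint (A ∘L T)) ∘L (A ∘L T) : End u) :
        E u →ₗ[ℝ] E u) with hf
  let N' : End K := LinearMap.toContinuousLinearMap
    ((Φ.toLinearEquiv : VV u P →ₗ[ℝ] E K) ∘ₗ blk P f ∘ₗ
      (Φ.toLinearEquiv.symm : E K →ₗ[ℝ] VV u P))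
  have hN' : Pool.Agent.Helper55.RZ.dt N' = LinearMap.det f := by
    have h1 : Pool.Agent.Helper55.RZ.dt N' = LinearMap.det ((Φ.toLinearEquiv : VV u P →ₗ[ℝ] E K) ∘ₗ blk P f ∘ₗ
      (Φ.toLinearEquiv.symm : E K →ₗ[ℝ] VV u P)) := rfl
    rw [h1, LinearMap.det_conj, det_blk]
  have hconj : ContinuousLinearMap.adjoint W * NN A P * W = N' := by
    ext1 v
    refine ext_inner_right ℝ fun w => ?_
    change inner ℝ ((ContinuousLinearMap.adjoint W) (NN A P (W v))) w = _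
    rw [ContinuousLinearMap.adjoint_inner_left, nn_inner, hPW, hPW, hPW', hPW']
    have h1 : N' v = Φ (blk P f (Φ.symm v)) := rfl
    have h2 : inner ℝ (N' v) w = inner ℝ (blk P f (Φ.symm v)) (Φ.symm w) := by
      rw [h1]
      conv_lhs => rw [← Φ.apply_symm_apply w]
      rw [LinearIsometryEquiv.inner_map_map]
    rw [h2, WithLp.prod_inner_apply, blk_fst, blk_snd]
    congr 1
    have h3 : f (WithLp.ofLp (Φ.symm v)).1 = ContinuousLinearMap.adjoint (A ∘L T)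
      ((A ∘L T) (WithLp.ofLp (Φ.symm v)).1) := rfl
    rw [h3, ContinuousLinearMap.adjoint_inner_left]
    rfl
  rw [← hN']
  exact dt_conj hconj

theorem jv : StmtJV := by
  intro K u T A P _ hPT _ hr
  obtain ⟨d, hd⟩ := key T P hPT hr
  have h1 := hd A
  have h2 := hd 1
  have h3 : ((1 : End K) ∘L T) = T := by
    ext1 v
    rfl
  rw [h3] at h2
  have h4 : gv (A ∘L T) = Real.sqrt (d ^ 2 * Pool.Agent.Helper55.RZ.dt (NN A P)) := by
    unfold gv
    rw [h1]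
  have h5 : gv T = Real.sqrt (d ^ 2 * Pool.Agent.Helper55.RZ.dt (NN 1 P)) := by
    unfold gv
    rw [h2]
  rw [h4, h5, jac_eq, ← Real.sqrt_mul (div_nonneg (dt_nonneg _ _) (dt_nonneg _ _))]
  congr 1
  have h6 := (dt_pos_one P).ne'
  field_simp

end Pool.Agent.Helper83.RZ
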